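import Pool.Agent.MP_6b3410_lc.H75.Spec

/-!
Polynomials of degree four without large monochromatic embedded rectangles.
-/

namespace Pool.Agent.MP_6b3410_lc.H71

open Classical H75 Finset

/-- Sauer-Shelah: a large family contains a grid. -/
theorem exists_grid {n e : ℕ} (R : Finset (Fin n → Bool))
    (h : ∑ k ∈ range (2 * e), n.choose k < R.card) :
    ∃ (p q : Fin e → Fin n) (u : Fin e × Fin e → Fin n → Bool), (∀ g, u g ∈ R) ∧
      (∀ g a, u g (p a) = true ↔ a = g.1) ∧ ∀ g b, u g (q b) = true ↔ b = g.2 := by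
  let φ : (Fin n → Bool) → Finset (Fin n) := fun u => univ.filter fun i => u i = true
  have hφ : Function.Injective φ := fun u v huv => funext fun i => by
    have := congrArg (fun s => i ∈ s) huv
    simpa [φ] using this
  obtain ⟨s, hs, hc⟩ : ∃ s ∈ (R.image φ).shatterer, 2 * e ≤ s.card := by
    by_contra hcon
    push Not at hcon
    have h1 := (R.image φ).card_le_card_shatterer
    rw [card_image_of_injective _ hφ] at h1
    have h2 : (R.image φ).shatterer ⊆ (range (2 * e)).biUnion fun k => powersetCard k univ :=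
      fun s hs => mem_biUnion.2 ⟨s.card, mem_range.2 (hcon s hs), by simp⟩
    have h3 := (card_le_card h2).trans card_biUnion_le
    simp only [card_powersetCard, card_univ, Fintype.card_fin] at h3
    omega
  obtain ⟨r⟩ : Nonempty (Fin e ⊕ Fin e ↪ s) :=
    Function.Embedding.nonempty_of_card_le (by simp; omega)
  have hr : ∀ x y, (r x : Fin n) = r y ↔ x = y := fun x y =>
    ⟨fun h => r.injective (Subtype.ext h), fun h => by rw [h]⟩
  have hu : ∀ g : Fin e × Fin e, ∃ u ∈ R, ∀ x, u (r x) = true ↔ x = .inl g.1 ∨ x = .inr g.2 := by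
    intro g
    obtain ⟨t, ht, hst⟩ := mem_shatterer.1 hs (t := {(r (.inl g.1) : Fin n), (r (.inr g.2) : Fin n)})
      (by
        intro i hi
        rcases mem_insert.1 hi with rfl | hi
        · exact (r _).2
        · rw [mem_singleton.1 hi]; exact (r _).2)
    obtain ⟨u, hu, rfl⟩ := mem_image.1 ht
    refine ⟨u, hu, fun x => ?_⟩
    have := congrArg (fun s' => (r x : Fin n) ∈ s') hst
    simpa [φ, hr] using this
  choose u hu hu' using hu
  exact ⟨fun a => r (.inl a), fun b => r (.inr b), u, hu, fun g a => by simp [hu'],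
    fun g b => by simp [hu']⟩

/-- the monomial `t` takes the value one at `z` -/
abbrev On {n : ℕ} (t : Fin n × Fin n × Fin n × Fin n) (z : Fin n → Bool) : Prop :=
  z t.1 = true ∧ z t.2.1 = true ∧ z t.2.2.1 = true ∧ z t.2.2.2 = true

theorem eq_of_poly {n : ℕ} {c c' : Fin n × Fin n × Fin n × Fin n → Bool} {z : Fin n → Bool}
    {t : Fin n × Fin n × Fin n × Fin n} (ht : On t z) (h : ∀ τ, τ ≠ t → On τ z → c τ = c' τ)
    (hp : poly c z = poly c' z) : c t = c' t := by
  have key : ∀ c c' : Fin n × Fin n × Fin n × Fin n → Bool, (∀ τ, τ ≠ t → On τ z → c τ = c' τ) →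
      c t = true → c' t = false → poly c z ≠ poly c' z := by
    intro c c' h h1 h2 hp
    have e : (univ.filter fun τ => c τ = true ∧ On τ z) =
        insert t (univ.filter fun τ => c' τ = true ∧ On τ z) := by
      ext τ
      by_cases hτ : τ = t
      · subst hτ; simpa [h1] using ht
      · simp only [mem_filter, mem_univ, true_and, mem_insert, hτ, false_or]
        exact and_congr_left fun ho => by rw [h τ hτ ho]
    have hp' : Odd (univ.filter fun τ => c τ = true ∧ On τ z).card ↔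
        Odd (univ.filter fun τ => c' τ = true ∧ On τ z).card := by
      exact decide_eq_decide.1 hp
    rw [e, card_insert_of_notMem (by simp [h2]), Nat.odd_add_one] at hp'
    exact not_iff_self hp'
  cases h1 : c t <;> cases h2 : c' t
  · rfl
  · exact absurd hp.symm (key c' c (fun τ a b => (h τ a b).symm) h2 h1)
  · exact absurd hp (key c c' h h1 h2)
  · rfl

/-- polynomials that are constant on a family of points with private monomials -/
noncomputable def bad {n : ℕ} {G : Type} (z : G → Fin n → Bool) (β : Bool) :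
    Finset (Fin n × Fin n × Fin n × Fin n → Bool) :=
  univ.filter fun c => (∃ t : G → Fin n × Fin n × Fin n × Fin n,
    ∀ g g', On (t g) (z g') ↔ g = g') ∧ ∀ g, poly c (z g) = β

theorem mem_bad {n : ℕ} {G : Type} {z : G → Fin n → Bool} {β : Bool}
    {c : Fin n × Fin n × Fin n × Fin n → Bool} : c ∈ bad z β ↔
      (∃ t : G → Fin n × Fin n × Fin n × Fin n, ∀ g g', On (t g) (z g') ↔ g = g') ∧
        ∀ g, poly c (z g) = β := by
  rw [bad, mem_filter]
  exact and_iff_right (mem_univ _)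

theorem card_bad {n : ℕ} {G : Type} [Fintype G] (z : G → Fin n → Bool) (β : Bool) :
    (bad z β).card * 2 ^ Fintype.card G ≤ 2 ^ n ^ 4 := by
  by_cases h : ∃ t : G → Fin n × Fin n × Fin n × Fin n, ∀ g g', On (t g) (z g') ↔ g = g'
  · obtain ⟨t, ht⟩ := h
    have hti : Function.Injective t := fun g g' e => (ht g g').1 (e ▸ (ht g' g').2 rfl)
    have h1 := card_le_card_of_injOn (s := bad z β ×ˢ (univ : Finset (G → Bool)))
      (t := (univ : Finset (Fin n × Fin n × Fin n × Fin n → Bool)))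
      (fun x => Function.extend t x.2 x.1) (fun _ _ => mem_coe.2 (mem_univ _)) (by
        rintro ⟨c, s⟩ hc ⟨c', s'⟩ hc' e
        have e' : Function.extend t s c = Function.extend t s' c' := e
        have hc := (mem_bad.1 (mem_product.1 (mem_coe.1 hc)).1).2
        have hc' := (mem_bad.1 (mem_product.1 (mem_coe.1 hc')).1).2
        have off : ∀ τ, (¬∃ g, t g = τ) → c τ = c' τ := fun τ hτ => by
          have := congrFun e' τ
          rwa [Function.extend_apply' _ _ _ hτ, Function.extend_apply' _ _ _ hτ] at this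
        refine Prod.ext (funext fun τ => ?_) (funext fun g => ?_)
        · by_cases hτ : ∃ g, t g = τ
          · obtain ⟨g, rfl⟩ := hτ
            refine eq_of_poly ((ht g g).2 rfl) (fun τ' hne ho => off τ' ?_)
              ((hc g).trans (hc' g).symm)
            rintro ⟨g', rfl⟩
            exact hne (by rw [(ht g' g).1 ho])
          · exact off τ hτ
        · have := congrFun e' (t g)
          rwa [hti.extend_apply, hti.extend_apply] at this)
    simp only [card_product, card_univ, Fintype.card_fun, Fintype.card_bool, Fintype.card_prod,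
      Fintype.card_fin] at h1
    convert h1 using 2
    ring
  · have : bad z β = ∅ := eq_empty_of_forall_notMem fun _ h' => h (mem_bad.1 h').1
    simp [this]

theorem exists_good {n e : ℕ} (he : 2 * n + 2 ≤ e ^ 2) :
    ∃ c : Fin n × Fin n × Fin n × Fin n → Bool, ∀ β : Bool,
      ¬HasRect {z | poly c z = β} (∑ k ∈ range (2 * e), n.choose k + 1) := by
  let Z : Finset (Fin n) × (Fin e × Fin e → Fin n → Bool) × (Fin e × Fin e → Fin n → Bool) × Bool →
      (Fin e × Fin e) × (Fin e × Fin e) → Fin n → Bool :=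
    fun x g i => if i ∈ x.1 then x.2.1 g.1 i else x.2.2.1 g.2 i
  have h1 : (univ.biUnion fun x => bad (Z x) x.2.2.2).card * 2 ^ e ^ 4 ≤
      2 ^ (n + 2 * (n * e ^ 2) + 1) * 2 ^ n ^ 4 := by
    refine (Nat.mul_le_mul_right _ card_biUnion_le).trans ?_
    rw [sum_mul]
    refine (sum_le_card_nsmul _ _ (2 ^ n ^ 4) fun x _ => ?_).trans (le_of_eq ?_)
    · have := card_bad (Z x) x.2.2.2
      simp only [Fintype.card_prod, Fintype.card_fin] at this
      rwa [show e * e * (e * e) = e ^ 4 by ring] at this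
    · simp only [card_univ, Fintype.card_prod, Fintype.card_fun, Fintype.card_bool,
        Fintype.card_fin, Fintype.card_finset, smul_eq_mul, ← pow_mul]
      ring
  have h2 : n + 2 * (n * e ^ 2) + 1 < e ^ 4 := by nlinarith
  obtain ⟨c, -, hc⟩ := exists_mem_notMem_of_card_lt_card
    (s := univ.biUnion fun x => bad (Z x) x.2.2.2) (t := univ) (by
      have h3 : 2 ^ (n + 2 * (n * e ^ 2) + 1) * 2 ^ n ^ 4 < 2 ^ n ^ 4 * 2 ^ e ^ 4 := by
        rw [mul_comm]
        exact Nat.mul_lt_mul_of_pos_left (Nat.pow_lt_pow_right (by norm_num) h2) (by positivity)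
      have h4 := Nat.lt_of_mul_lt_mul_right (h1.trans_lt h3)
      simp only [card_univ, Fintype.card_fun, Fintype.card_bool, Fintype.card_prod,
        Fintype.card_fin]
      convert h4 using 2
      ring)
  refine ⟨c, fun β ⟨F, G, w, R₁, R₂, hFG, k₁, k₂, w₁, w₂, hX⟩ => hc ?_⟩
  obtain ⟨p, q, u, hu, hp, hq⟩ := exists_grid (e := e) R₁ k₁
  obtain ⟨p', q', v, hv, hp', hq'⟩ := exists_grid (e := e) R₂ k₂
  have he2 : 2 ≤ e := by
    by_contra hlt
    have : e ≤ 1 := by omega
    nlinarith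
  have : Nontrivial (Fin e) := Fin.nontrivial_iff_two_le.2 he2
  have inF : ∀ (F : Finset (Fin n)) (R : Finset (Fin n → Bool)) (u : Fin e × Fin e → Fin n → Bool)
      (i : Fin n) (g g' : Fin e × Fin e), (∀ u ∈ R, ∀ i, i ∉ F → u i = w i) → (∀ g, u g ∈ R) →
      u g i = true → ¬u g' i = true → i ∈ F := fun F R u i g g' hw hu a b => by
    by_contra hi
    exact b (by rw [hw _ (hu g') i hi, ← hw _ (hu g) i hi, a])
  have m1 : ∀ a, p a ∈ F := fun a => by
    obtain ⟨b, hb⟩ := exists_ne a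
    exact inF F R₁ u _ (a, a) (b, b) w₁ hu ((hp _ _).2 rfl) fun h => hb ((hp _ _).1 h).symm
  have m2 : ∀ a, q a ∈ F := fun a => by
    obtain ⟨b, hb⟩ := exists_ne a
    exact inF F R₁ u _ (a, a) (b, b) w₁ hu ((hq _ _).2 rfl) fun h => hb ((hq _ _).1 h).symm
  have m3 : ∀ a, p' a ∉ F := fun a => by
    obtain ⟨b, hb⟩ := exists_ne a
    exact disjoint_right.1 hFG
      (inF G R₂ v _ (a, a) (b, b) w₂ hv ((hp' _ _).2 rfl) fun h => hb ((hp' _ _).1 h).symm)
  have m4 : ∀ a, q' a ∉ F := fun a => by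
    obtain ⟨b, hb⟩ := exists_ne a
    exact disjoint_right.1 hFG
      (inF G R₂ v _ (a, a) (b, b) w₂ hv ((hq' _ _).2 rfl) fun h => hb ((hq' _ _).1 h).symm)
  refine mem_biUnion.2 ⟨(F, u, v, β), mem_univ _, mem_bad.2 ⟨
    ⟨fun g => (p g.1.1, q g.1.2, p' g.2.1, q' g.2.2), fun g g' => ?_⟩,
    fun g => hX _ (hu g.1) _ (hv g.2)⟩⟩
  simp only [On, Z, m1, m2, m3, m4, if_true, if_false, hp, hq, hp', hq', Prod.ext_iff, and_assoc]

theorem hard : HardStmt := by
  intro γ hγ
  refine ⟨⌈(60 / γ) ^ 4⌉₊ + 1, fun n hn => ?_⟩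
  obtain ⟨c, hc⟩ := exists_good (n := n) (e := Nat.sqrt (2 * n + 2) + 1)
    (Nat.lt_succ_sqrt' _).le
  refine ⟨c, _, ?_, hc⟩
  set e := Nat.sqrt (2 * n + 2) + 1 with he
  have h1 : ∑ k ∈ range (2 * e), n.choose k + 1 ≤ (2 * e + 1) * (n + 1) ^ (2 * e) := by
    have a : ∑ k ∈ range (2 * e), n.choose k ≤ (2 * e) * (n + 1) ^ (2 * e) := by
      have := sum_le_card_nsmul (range (2 * e)) (fun k => n.choose k) ((n + 1) ^ (2 * e))
        fun k hk => (Nat.choose_le_pow n k).trans ((Nat.pow_le_pow_left (Nat.le_succ n) k).trans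
          (Nat.pow_le_pow_right (Nat.succ_pos n) (mem_range.1 hk).le))
      simpa using this
    have b : 1 ≤ (n + 1) ^ (2 * e) := Nat.one_le_pow _ _ (Nat.succ_pos n)
    nlinarith
  obtain ⟨x, hx0, hx⟩ : ∃ x : ℝ, 0 ≤ x ∧ x ^ 4 = n + 1 := by
    refine ⟨√(√(n + 1)), Real.sqrt_nonneg _, ?_⟩
    rw [show (4 : ℕ) = 2 * 2 from rfl, pow_mul, Real.sq_sqrt (Real.sqrt_nonneg _),
      Real.sq_sqrt (by positivity)]
  have hn1 : (1 : ℝ) ≤ n := by exact_mod_cast (show 1 ≤ n by omega)
  have hx1 : 1 ≤ x := by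
    by_contra h
    have := pow_le_one₀ (n := 4) hx0 (not_le.1 h).le
    linarith
  have hxγ : 60 / γ ≤ x := by
    refine le_of_pow_le_pow_left₀ (n := 4) (by norm_num) hx0 ?_
    have : ((⌈(60 / γ) ^ 4⌉₊ : ℕ) : ℝ) ≤ n := by exact_mod_cast (show _ ≤ n by omega)
    linarith [Nat.le_ceil ((60 / γ) ^ 4)]
  have hex : (e : ℝ) ≤ 3 * x ^ 2 := by
    have a : ((Nat.sqrt (2 * n + 2) : ℕ) : ℝ) ^ 2 ≤ (2 * x ^ 2) ^ 2 := by
      have : ((Nat.sqrt (2 * n + 2) : ℕ) : ℝ) ^ 2 ≤ 2 * n + 2 := by
        exact_mod_cast Nat.sqrt_le' (2 * n + 2)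
      nlinarith
    have b := le_of_pow_le_pow_left₀ (n := 2) (by norm_num) (by positivity) a
    have c : (1 : ℝ) ≤ x ^ 2 := one_le_pow₀ hx1
    rw [he]
    push_cast
    linarith
  have h2 : (n + 1 : ℝ) ≤ Real.exp (4 * x) := by
    rw [← hx, show (4 : ℝ) * x = (4 : ℕ) * x by norm_num, Real.exp_nat_mul]
    exact pow_le_pow_left₀ hx0 (by linarith [Real.add_one_le_exp x]) 4
  have h3 : (2 * e + 1 : ℝ) ≤ Real.exp (2 * e) := Real.add_one_le_exp _
  have h4 : 2 * e + 2 * e * (4 * x) ≤ γ * n := by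
    have a : 60 ≤ γ * x := by rw [div_le_iff₀ hγ] at hxγ; linarith
    have b : x ^ 4 ≤ 2 * n := by linarith
    have c : 0 ≤ x ^ 3 := by positivity
    have d : (e : ℝ) * (10 * x) ≤ 3 * x ^ 2 * (10 * x) :=
      mul_le_mul_of_nonneg_right hex (by positivity)
    have f : (0 : ℝ) ≤ e := Nat.cast_nonneg _
    nlinarith [mul_le_mul_of_nonneg_right a c, mul_le_mul_of_nonneg_left b hγ.le,
      mul_le_mul_of_nonneg_left hx1 f]
  calc ((∑ k ∈ range (2 * e), n.choose k + 1 : ℕ) : ℝ)
      ≤ (2 * e + 1) * (n + 1) ^ (2 * e) := by exact_mod_cast h1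
    _ ≤ Real.exp (2 * e) * Real.exp (4 * x) ^ (2 * e) := by gcongr
    _ = Real.exp (2 * e + 2 * e * (4 * x)) := by
      rw [Real.exp_add, ← Real.exp_nat_mul]; push_cast; ring_nf
    _ ≤ Real.exp (γ * n) := Real.exp_le_exp.2 h4

end Pool.Agent.MP_6b3410_lc.H71
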